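import Mathlib

/-!
# MP_13ba09_nt, Q1: there are infinitely many further exceptional tuples

Put `x_1 = 0` and `x_{m+1} = -t / (1 + x_m)`, so `x_2 = -t`, `x_3 = t/(t-1)`,
`x_4 = (t^2-t)/(1-2t)`, ...  In `K[w]` with `w^2 - w + t = 0` one has `w^m = P_m + Q_m w`,
`x_m = P_m / Q_m`, and taking norms `P_m^2 + P_m Q_m + t Q_m^2 = t^m`.  A point `y` has portrait
`(1,1)` for `z^2 + c` only if `y^2 + y + c = 0`; for `y = x_m(c)` this forces `c = 0`, `y = 0`,
and `0` is fixed by `z^2`.  So all `x_m` (`m >= 2`) are exceptional for `(1,1,2)`; in the same way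
all `-x_m(t+1)` are exceptional for `(1,2,2)`.
-/

namespace Pool.Agent.Results.MP_13ba09_nt.InfinitelyManyExceptional

open Polynomial

/-- `y` has portrait `(M, N)` for the map `f`: `f^M(y)` has exact period `N`, and `M` is minimal
(`f^(M-1)(y)` is not periodic unless `M = 0`). -/
def Portrait {A : Type*} (f : A → A) (y : A) (M N : ℕ) : Prop :=
  f^[M + N] y = f^[M] y ∧ (∀ n, 0 < n → n < N → f^[M + n] y ≠ f^[M] y) ∧
    (M = 0 ∨ ∀ n, 0 < n → f^[M - 1 + n] y ≠ f^[M - 1] y)

/-- `x ∈ K(t)` is regular at `t = c` with value `v`. -/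
def ValueAt {K : Type*} [Field K] (x : RatFunc K) (c v : K) : Prop :=
  ∃ p q : K[X], q.eval c ≠ 0 ∧
    x = algebraMap K[X] (RatFunc K) p / algebraMap K[X] (RatFunc K) q ∧
    v = p.eval c / q.eval c

/-- The tuple `(x, M, N, d)` is exceptional: `x` is non-constant, `N ≥ 1`, `d ≥ 2`, and at no
place `t = c` does the reduction of `x` have portrait `(M, N)` for `z^d + c`. -/
def Exceptional {K : Type*} [Field K] (x : RatFunc K) (M N d : ℕ) : Prop :=
  (∀ a : K, x ≠ RatFunc.C a) ∧ 1 ≤ N ∧ 2 ≤ d ∧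
    ∀ c v : K, ValueAt x c v → ¬ Portrait (fun z => z ^ d + c) v M N

section
variable {K : Type*} [Field K]

/-- The pair `(P_{n+1}, Q_{n+1})` with `w^(n+1) = P + Q w`, `w^2 - w + X = 0`. -/
noncomputable def pq (K : Type*) [Field K] : ℕ → K[X] × K[X]
  | 0 => (0, 1)
  | n + 1 => (-X * (pq K n).2, (pq K n).1 + (pq K n).2)

theorem pq_norm (n : ℕ) :
    (pq K n).1 ^ 2 + (pq K n).1 * (pq K n).2 + X * (pq K n).2 ^ 2 = X ^ (n + 1) := by
  induction n with
  | zero => simp [pq]
  | succ n ih =>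
    have : (pq K (n+1)).1 ^ 2 + (pq K (n+1)).1 * (pq K (n+1)).2 + X * (pq K (n+1)).2 ^ 2
        = X * ((pq K n).1 ^ 2 + (pq K n).1 * (pq K n).2 + X * (pq K n).2 ^ 2) := by
      simp only [pq]; ring
    rw [this, ih]; ring

theorem P_zero (n : ℕ) : (pq K n).1.eval 0 = 0 := by
  cases n with
  | zero => simp [pq]
  | succ n => simp [pq]

theorem Q_zero (n : ℕ) : (pq K n).2.eval 0 = 1 := by
  induction n with
  | zero => simp [pq]
  | succ n ih => simp [pq, ih, P_zero]

theorem Q_ne (n : ℕ) : (pq K n).2 ≠ 0 := by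
  intro h
  have := Q_zero (K := K) n
  rw [h] at this
  simp at this

theorem norm_eval (n : ℕ) (c : K) :
    ((pq K n).1.eval c) ^ 2 + (pq K n).1.eval c * (pq K n).2.eval c + c * ((pq K n).2.eval c) ^ 2
      = c ^ (n + 1) := by
  have := congrArg (Polynomial.eval c) (pq_norm (K := K) n)
  simpa using this

theorem Q_eval_ne (n : ℕ) (c : K) (v : K) (h : (pq K n).1.eval c = v * (pq K n).2.eval c) :
    (pq K n).2.eval c ≠ 0 := by
  intro hq
  have h1 := norm_eval n c
  rw [h, hq] at h1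
  have hc : c = 0 := by
    have : c ^ (n + 1) = 0 := by rw [← h1]; ring
    exact pow_eq_zero_iff (by omega) |>.1 this
  rw [hc, Q_zero] at hq
  exact one_ne_zero hq

/-- The key identity at a point. -/
theorem key (n : ℕ) (c v : K) (h : (pq K n).1.eval c = v * (pq K n).2.eval c)
    (hv : v ^ 2 + v + c = 0) : c = 0 ∧ v = 0 := by
  have h1 := norm_eval n c
  rw [h] at h1
  have hc : c = 0 := by
    have : c ^ (n + 1) = 0 := by
      rw [← h1]
      linear_combination ((pq K n).2.eval c) ^ 2 * hv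
    exact pow_eq_zero_iff (by omega) |>.1 this
  refine ⟨hc, ?_⟩
  rw [hc, Q_zero, P_zero] at h
  simpa using h.symm

/-- `x_{n+1} = P_{n+1}/Q_{n+1}`. -/
noncomputable def xs (K : Type*) [Field K] (n : ℕ) : RatFunc K :=
  algebraMap K[X] (RatFunc K) (pq K n).1 / algebraMap K[X] (RatFunc K) (pq K n).2

/-- `-x_{n+1}(t+1)`. -/
noncomputable def ys (K : Type*) [Field K] (n : ℕ) : RatFunc K :=
  - (algebraMap K[X] (RatFunc K) ((pq K n).1.comp (X + 1)) /
    algebraMap K[X] (RatFunc K) ((pq K n).2.comp (X + 1)))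

theorem div_eq {p q r s : K[X]} (hq : q ≠ 0) (hs : s ≠ 0)
    (h : algebraMap K[X] (RatFunc K) p / algebraMap K[X] (RatFunc K) q =
      algebraMap K[X] (RatFunc K) r / algebraMap K[X] (RatFunc K) s) : p * s = r * q := by
  have hq' : algebraMap K[X] (RatFunc K) q ≠ 0 := by
    simpa using hq
  have hs' : algebraMap K[X] (RatFunc K) s ≠ 0 := by
    simpa using hs
  rw [div_eq_div_iff hq' hs'] at h
  rw [← map_mul, ← map_mul] at h
  exact RatFunc.algebraMap_injective K h

theorem ne_of_eval_ne {q : K[X]} {c : K} (h : q.eval c ≠ 0) : q ≠ 0 := by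
  rintro rfl; simp at h

theorem value_xs (n : ℕ) (c v : K) (h : ValueAt (xs K n) c v) :
    (pq K n).1.eval c = v * (pq K n).2.eval c := by
  obtain ⟨p, q, hq, hx, rfl⟩ := h
  have h1 := div_eq (Q_ne n) (ne_of_eval_ne hq) hx
  have h2 := congrArg (Polynomial.eval c) h1
  simp only [eval_mul] at h2
  field_simp
  linear_combination h2

theorem comp_ne (n : ℕ) : (pq K n).2.comp (X + 1) ≠ 0 := by
  apply ne_of_eval_ne (c := (-1 : K))
  rw [eval_comp]
  simp [Q_zero]

theorem value_ys (n : ℕ) (c v : K) (h : ValueAt (ys K n) c v) :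
    (pq K n).1.eval (c + 1) = (-v) * (pq K n).2.eval (c + 1) := by
  obtain ⟨p, q, hq, hx, rfl⟩ := h
  have hx' : algebraMap K[X] (RatFunc K) (-((pq K n).1.comp (X + 1))) /
      algebraMap K[X] (RatFunc K) ((pq K n).2.comp (X + 1)) =
      algebraMap K[X] (RatFunc K) p / algebraMap K[X] (RatFunc K) q := by
    rw [← hx, ys, map_neg, neg_div]
  have h1 := div_eq (comp_ne n) (ne_of_eval_ne hq) hx'
  have h2 := congrArg (Polynomial.eval c) h1
  simp only [eval_mul, eval_neg, eval_comp, eval_add, eval_X, eval_one] at h2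
  field_simp
  linear_combination -h2

theorem portrait11 (c v : K) (h : Portrait (fun z : K => z ^ 2 + c) v 1 1) :
    v ^ 2 + v + c = 0 ∧ v ^ 2 + c ≠ v := by
  obtain ⟨h1, -, h3⟩ := h
  simp only [Function.iterate_succ, Function.iterate_zero, Function.comp, id] at h1
  have h4 := h3.resolve_left (by norm_num) 1 (by norm_num)
  simp only [Nat.sub_self, Nat.zero_add, Function.iterate_succ, Function.iterate_zero,
    Function.comp, id] at h4
  refine ⟨?_, h4⟩
  have h5 : (v ^ 2 + c - v) * (v ^ 2 + v + c) = 0 := by linear_combination h1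
  rcases mul_eq_zero.1 h5 with h6 | h6
  · exact absurd (sub_eq_zero.1 h6) h4
  · exact h6

theorem portrait12 (c v : K) (h : Portrait (fun z : K => z ^ 2 + c) v 1 2) :
    v ^ 2 - v + c + 1 = 0 ∧ (v ^ 2 + c) ^ 2 + c ≠ v := by
  obtain ⟨h1, h2, h3⟩ := h
  have h2' := h2 1 (by norm_num) (by norm_num)
  have h4 := h3.resolve_left (by norm_num) 2 (by norm_num)
  simp only [Nat.sub_self, Nat.zero_add, Function.iterate_succ, Function.iterate_zero,
    Function.comp, id] at h1 h2' h4
  refine ⟨?_, h4⟩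
  -- `w = v^2+c`, `w' = w^2 + c`, `w'^2 + c = w`
  have h5 : ((v ^ 2 + c) ^ 2 + c - v) * ((v ^ 2 + c) ^ 2 + c + v) = 0 := by
    linear_combination h1
  have h6 : (v ^ 2 + c) ^ 2 + c + v = 0 := by
    rcases mul_eq_zero.1 h5 with h6 | h6
    · exact absurd (sub_eq_zero.1 h6) h4
    · exact h6
  have h7 : ((v ^ 2 + c) ^ 2 + c - (v ^ 2 + c)) * ((v ^ 2 + c) ^ 2 + c + (v ^ 2 + c) + 1) = 0 := by
    linear_combination h1
  have h8 : (v ^ 2 + c) ^ 2 + c + (v ^ 2 + c) + 1 = 0 := by
    rcases mul_eq_zero.1 h7 with h8 | h8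
    · exact absurd (sub_eq_zero.1 h8) h2'
    · exact h8
  linear_combination h8 - h6

theorem xs_ne_C (n : ℕ) (a : K) : xs K (n + 1) ≠ RatFunc.C a := by
  intro h
  have h0 : algebraMap K[X] (RatFunc K) (pq K (n+1)).1 / algebraMap K[X] (RatFunc K) (pq K (n+1)).2
      = algebraMap K[X] (RatFunc K) (C a) / algebraMap K[X] (RatFunc K) 1 := by
    rw [map_one, div_one, RatFunc.algebraMap_C]; exact h
  have h1 := div_eq (Q_ne _) one_ne_zero h0
  rw [mul_one] at h1
  have h2 := congrArg (Polynomial.eval 0) h1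
  rw [P_zero, eval_mul, Q_zero] at h2
  have ha : a = 0 := by simpa using h2.symm
  rw [ha] at h1
  have h3 := pq_norm (K := K) (n + 1)
  rw [h1] at h3
  have h4 : X * ((pq K (n+1)).2 ^ 2) = X * (X ^ (n + 1) : K[X]) := by
    rw [← pow_succ', ← h3]; simp
  have h5 := mul_left_cancel₀ X_ne_zero h4
  have h6 := congrArg (Polynomial.eval 0) h5
  rw [eval_pow, Q_zero] at h6
  simp at h6

theorem xs_inj (n m : ℕ) (hnm : n < m) : (pq K n).1 * (pq K m).2 ≠ (pq K m).1 * (pq K n).2 := by
  intro h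
  have h1 : X ^ (n + 1) * (pq K m).2 ^ 2 = X ^ (m + 1) * (pq K n).2 ^ 2 := by
    rw [← pq_norm n, ← pq_norm m]
    linear_combination ((pq K n).1 * (pq K m).2 + (pq K m).1 * (pq K n).2
      + (pq K m).2 * (pq K n).2) * h
  obtain ⟨k, rfl⟩ := Nat.exists_eq_add_of_lt hnm
  have h2 : X ^ (n + 1) * (pq K (n + k + 1)).2 ^ 2
      = X ^ (n + 1) * (X ^ (k + 1) * (pq K n).2 ^ 2) := by
    rw [h1]; ring
  have h3 := mul_left_cancel₀ (pow_ne_zero _ X_ne_zero) h2
  have h4 := congrArg (Polynomial.eval 0) h3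
  simp [Q_zero] at h4

theorem xs_injective : Function.Injective (xs K) := by
  intro n m h
  by_contra hne
  rcases lt_or_gt_of_ne hne with hlt | hlt
  · exact xs_inj n m hlt (div_eq (Q_ne n) (Q_ne m) h)
  · exact xs_inj m n hlt (div_eq (Q_ne m) (Q_ne n) h.symm)

theorem comp_inj {p q : K[X]} (h : p.comp (X + 1) = q.comp (X + 1)) : p = q := by
  have h1 := congrArg (fun r : K[X] => r.comp (X - 1)) h
  simpa [comp_assoc] using h1

theorem ys_injective : Function.Injective (ys K) := by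
  intro n m h
  have h' := neg_injective h
  have h1 := div_eq (comp_ne n) (comp_ne m) h'
  rw [← mul_comp, ← mul_comp] at h1
  have h2 := comp_inj h1
  by_contra hne
  rcases lt_or_gt_of_ne hne with hlt | hlt
  · exact xs_inj n m hlt h2
  · exact xs_inj m n hlt h2.symm

theorem ys_ne_C (n : ℕ) (a : K) : ys K (n + 1) ≠ RatFunc.C a := by
  intro h
  have h0 : algebraMap K[X] (RatFunc K) ((pq K (n+1)).1.comp (X + 1)) /
      algebraMap K[X] (RatFunc K) ((pq K (n+1)).2.comp (X + 1))
      = algebraMap K[X] (RatFunc K) (C (-a)) / algebraMap K[X] (RatFunc K) 1 := by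
    rw [map_one, div_one, RatFunc.algebraMap_C, map_neg, ← h, ys, neg_neg]
  have h1 := div_eq (comp_ne _) one_ne_zero h0
  rw [mul_one] at h1
  have h2 : ((pq K (n+1)).1).comp (X + 1) = (C (-a) * (pq K (n+1)).2).comp (X + 1) := by
    rw [h1, mul_comp, C_comp]
  have h3 := comp_inj h2
  apply xs_ne_C n (-a)
  rw [xs, h3, map_mul, ← RatFunc.algebraMap_C]
  have : algebraMap K[X] (RatFunc K) (pq K (n+1)).2 ≠ 0 := by simpa using Q_ne (K := K) (n + 1)
  field_simp

theorem exc_xs (n : ℕ) : Exceptional (xs K (n + 1)) 1 1 2 := by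
  refine ⟨fun a => xs_ne_C n a, le_refl _, le_refl _, ?_⟩
  intro c v hv hp
  obtain ⟨h1, h2⟩ := portrait11 c v hp
  obtain ⟨rfl, rfl⟩ := key _ c v (value_xs _ c v hv) h1
  apply h2; ring

theorem exc_ys (n : ℕ) : Exceptional (ys K (n + 1)) 1 2 2 := by
  refine ⟨fun a => ys_ne_C n a, by norm_num, le_refl _, ?_⟩
  intro c v hv hp
  obtain ⟨h1, h2⟩ := portrait12 c v hp
  obtain ⟨h3, h4⟩ := key _ (c + 1) (-v) (value_ys _ c v hv) (by linear_combination h1)
  have h5 : v = 0 := by simpa using h4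
  have h6 : c = -1 := by linear_combination h3
  apply h2
  rw [h5, h6]; ring

end

/-- **MP_13ba09_nt, Q1: yes.**  Over every algebraically closed field `K` of characteristic zero
there are infinitely many exceptional tuples: `(x, 1, 1, 2)` is exceptional for infinitely many
`x ∈ K(t)`, among them `t/(t-1)`, and `(x, 1, 2, 2)` is exceptional for infinitely many `x`.
In particular there is one different from `(-t,1,1,2)` and `(t+1,1,2,2)`. -/
theorem result (K : Type*) [Field K] [IsAlgClosed K] [CharZero K] :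
    (∃ (x : RatFunc K) (M N d : ℕ), Exceptional x M N d ∧
      (x, M, N, d) ≠ (-RatFunc.X, 1, 1, 2) ∧ (x, M, N, d) ≠ (RatFunc.X + 1, 1, 2, 2)) ∧
    Exceptional (RatFunc.X / (RatFunc.X - 1) : RatFunc K) 1 1 2 ∧
    {x : RatFunc K | Exceptional x 1 1 2}.Infinite ∧
    {x : RatFunc K | Exceptional x 1 2 2}.Infinite := by
  have hinfx : {x : RatFunc K | Exceptional x 1 1 2}.Infinite := by
    have hs : Set.range (fun n => xs K (n + 1)) ⊆ {x : RatFunc K | Exceptional x 1 1 2} := by
      rintro _ ⟨n, rfl⟩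
      exact exc_xs n
    exact (Set.infinite_range_of_injective
      (fun a b h => by simpa using xs_injective h)).mono hs
  have hinfy : {x : RatFunc K | Exceptional x 1 2 2}.Infinite := by
    have hs : Set.range (fun n => ys K (n + 1)) ⊆ {x : RatFunc K | Exceptional x 1 2 2} := by
      rintro _ ⟨n, rfl⟩
      exact exc_ys n
    exact (Set.infinite_range_of_injective
      (fun a b h => by simpa using ys_injective h)).mono hs
  have h3 : xs K 2 = (RatFunc.X / (RatFunc.X - 1) : RatFunc K) := by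
    have e1 : (pq K 2).1 = -X := by simp [pq]
    have e2 : (pq K 2).2 = -(X - 1) := by simp [pq]; ring
    rw [xs, e1, e2, map_neg, map_neg, neg_div_neg_eq, map_sub, map_one, RatFunc.algebraMap_X]
  have hex : Exceptional (RatFunc.X / (RatFunc.X - 1) : RatFunc K) 1 1 2 := by
    rw [← h3]; exact exc_xs 1
  refine ⟨⟨RatFunc.X / (RatFunc.X - 1), 1, 1, 2, hex, ?_, by simp⟩, hex, hinfx, hinfy⟩
  intro h
  have h4 : (RatFunc.X / (RatFunc.X - 1) : RatFunc K) = -RatFunc.X := by
    simpa using h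
  have h5 : xs K 1 = -RatFunc.X := by
    have e1 : (pq K 1).1 = -X := by simp [pq]
    have e2 : (pq K 1).2 = 1 := by simp [pq]
    rw [xs, e1, e2, map_neg, map_one, div_one, RatFunc.algebraMap_X]
  have h6 : xs K 2 = xs K 1 := by rw [h3, h4, h5]
  have := xs_injective h6
  omega

end Pool.Agent.Results.MP_13ba09_nt.InfinitelyManyExceptional
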